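import Pool.Agent.W304.HL.Step

/-!
# The Hibi–Li inequality for marked posets

For every marked poset and every `i`, the marked chain polytope has at least as many
`i`-dimensional faces as the marked order polytope.
-/

namespace Pool.Agent.Results.MP_8118e9_co.HibiLiMarked

open Set

/-- The number of `i`-dimensional faces of `Q`. The nonempty faces of `Q` are the sets of the form
`{x ∈ Q | ∀ y ∈ Q, l y ≤ l x}` for a linear functional `l` (nonempty exposed faces, `Q` included,
which is the case `l = 0`); the dimension of a face is the dimension of its affine hull. -/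
noncomputable def fNum {V : Type*} [AddCommGroup V] [Module ℝ V] [TopologicalSpace V]
    (Q : Set V) (i : ℕ) : ℕ∞ :=
  Set.encard {F : Set V | F.Nonempty ∧ IsExposed ℝ Q F ∧
    Module.finrank ℝ (vectorSpan ℝ F) = i}

/-- The marked order polytope `O_{P,A}(λ)` in `ℝ^{P \ A}`. -/
def orderPolytope {P : Type*} [PartialOrder P] {A : Set P} (lam : A → ℝ) :
    Set ({p : P // p ∉ A} → ℝ) :=
  {x | (∀ p q : {p : P // p ∉ A}, p < q → x p ≤ x q) ∧
    (∀ (p : {p : P // p ∉ A}) (a : A), (p : P) < a → x p ≤ lam a) ∧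
    (∀ (b : A) (q : {p : P // p ∉ A}), (b : P) < q → lam b ≤ x q)}

/-- The marked chain polytope `C_{P,A}(λ)` in `ℝ^{P \ A}`. A chain `b < pₙ < ⋯ < p₁ < a` is given
by its marked ends `a, b` and the nonempty finite totally ordered set `s` of its inner elements. -/
def chainPolytope {P : Type*} [PartialOrder P] {A : Set P} (lam : A → ℝ) :
    Set ({p : P // p ∉ A} → ℝ) :=
  {x | (∀ p : {p : P // p ∉ A}, 0 ≤ x p) ∧
    (∀ (a b : A) (s : Finset {p : P // p ∉ A}), s.Nonempty →
      IsChain (· ≤ ·) (s : Set {p : P // p ∉ A}) → (∀ p ∈ s, (b : P) < p ∧ (p : P) < a) →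
        ∑ p ∈ s, x p ≤ lam a - lam b)}

open Pool.Agent.W304.HL in
theorem orderPolytope_eq {P : Type*} [PartialOrder P] {A : Set P} (lam : A → ℝ) :
    orderPolytope lam = ip lam Set.univ := by
  ext x
  constructor
  · rintro ⟨h1, h2, h3⟩
    refine ⟨fun b s a hv => ?_, fun c hc => absurd (Set.mem_univ c) hc⟩
    have hs : s = ∅ := by
      rw [Finset.eq_empty_iff_forall_notMem]
      exact fun c hc => hv.hs hc (Set.mem_univ c)
    have hne := hv.ne hs
    have hlt := hv.lt
    rw [hs, Finset.sum_empty, add_zero]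
    by_cases hb : b ∈ A
    · by_cases ha : a ∈ A
      · exact absurd ⟨hb, ha⟩ hne
      · rw [mu_mem hb]
        have := mu_coe (lam := lam) (x := x) ⟨a, ha⟩
        rw [this]
        exact h3 ⟨b, hb⟩ ⟨a, ha⟩ hlt
    · have hb' := mu_coe (lam := lam) (x := x) ⟨b, hb⟩
      rw [hb']
      by_cases ha : a ∈ A
      · rw [mu_mem ha]
        exact h2 ⟨b, hb⟩ ⟨a, ha⟩ hlt
      · have := mu_coe (lam := lam) (x := x) ⟨a, ha⟩
        rw [this]
        exact h1 ⟨b, hb⟩ ⟨a, ha⟩ hlt
  · rintro ⟨h1, -⟩
    refine ⟨fun p q hpq => ?_, fun p a hpa => ?_, fun b q hbq => ?_⟩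
    · have := h1 p ∅ q ⟨coe_mem_nodes.2 (Set.mem_univ _), coe_mem_nodes.2 (Set.mem_univ _), by simp,
        by simp, hpq, by simp, fun _ h => p.2 h.1⟩
      rwa [mu_coe, mu_coe, Finset.sum_empty, add_zero] at this
    · have := h1 p ∅ a ⟨coe_mem_nodes.2 (Set.mem_univ _), Or.inl a.2, by simp, by simp, hpa,
        by simp, fun _ h => p.2 h.1⟩
      rwa [mu_coe, mu_mem a.2, Finset.sum_empty, add_zero] at this
    · have := h1 b ∅ q ⟨Or.inl b.2, coe_mem_nodes.2 (Set.mem_univ _), by simp, by simp, hbq,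
        by simp, fun _ h => q.2 h.2⟩
      rwa [mu_coe, mu_mem b.2, Finset.sum_empty, add_zero] at this

open Pool.Agent.W304.HL in
theorem chainPolytope_eq {P : Type*} [PartialOrder P] {A : Set P} (lam : A → ℝ) :
    chainPolytope lam = ip lam ∅ := by
  have hn : nodes (∅ : Set {p : P // p ∉ A}) = A := by simp [nodes]
  ext x
  constructor
  · rintro ⟨h1, h2⟩
    refine ⟨fun b s a hv => ?_, fun c _ => h1 c⟩
    have hb := hv.hb
    have ha := hv.ha
    rw [hn] at hb ha
    have hs : s.Nonempty := by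
      rw [Finset.nonempty_iff_ne_empty]
      exact fun h => hv.ne h ⟨hb, ha⟩
    have := h2 ⟨a, ha⟩ ⟨b, hb⟩ s hs hv.chain hv.bet
    rw [mu_mem ha, mu_mem hb]
    linarith
  · rintro ⟨h1, h2⟩
    refine ⟨fun p => h2 p (fun h => h), fun a b s hs hch hbet => ?_⟩
    obtain ⟨c, hc⟩ := hs
    have := h1 b s a ⟨by rw [hn]; exact b.2, by rw [hn]; exact a.2, by simp, hch,
      (hbet c hc).1.trans (hbet c hc).2, hbet, fun h => absurd hc (by simp [h])⟩
    rw [mu_mem a.2, mu_mem b.2] at this
    have e1 : lam ⟨(a : P), a.2⟩ = lam a := rfl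
    have e2 : lam ⟨(b : P), b.2⟩ = lam b := rfl
    rw [e1, e2] at this
    linarith

/-- **Hibi–Li inequality for marked posets**: `f_i` of the marked order polytope is at most `f_i`
of the marked chain polytope, for every finite marked poset, every marking and every `i`. -/
theorem result {P : Type*} [PartialOrder P] [Finite P] (A : Set P)
    (hA : ∀ p : P, IsMin p ∨ IsMax p → p ∈ A) (lam : A → ℝ) (i : ℕ) :
    fNum (orderPolytope lam) i ≤ fNum (chainPolytope lam) i := by
  rw [orderPolytope_eq, chainPolytope_eq]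
  exact Pool.Agent.W304.HL.mono_ip lam (fun q h => hA q (Or.inl h)) (fun q h => hA q (Or.inr h)) i
    (fun u hu => absurd hu (Set.notMem_empty u)) _ Set.univ rfl (Set.empty_subset _)
    (fun _ _ v _ => Set.mem_univ v)

end Pool.Agent.Results.MP_8118e9_co.HibiLiMarked
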